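import Mathlib
import Pool.Graph.R_seed8.Univ637.Main

/-!
# Detection probability versus word length in free groups

The best detection probability of a test tuple (of any size) in the free group of rank `k` whose
words have length at most `m` is `min (1, m / k)` up to a constant factor, and it is attained with
`O(k)` words; fewer than `k` words detect nothing.
-/

set_option autoImplicit false

namespace Pool.Agent.Results.MP_6f9718_al.OptimalTradeoff

/-- The detection probability of the test tuple `A` of elements of the free group with basis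
`Fin k`: the infimum, over all proper subgroups `H`, of the proportion of the entries of `A` which
are not in `H`. -/
noncomputable def detection {k n : ℕ} (A : Fin n → FreeGroup (Fin k)) : ℝ :=
  ⨅ H : {H : Subgroup (FreeGroup (Fin k)) // H ≠ ⊤},
    (Nat.card {i : Fin n // A i ∉ H.1} : ℝ) / n

lemma bdd {k n : ℕ} (A : Fin n → FreeGroup (Fin k)) :
    BddBelow (Set.range fun H : {H : Subgroup (FreeGroup (Fin k)) // H ≠ ⊤} =>
      (Nat.card {i : Fin n // A i ∉ H.1} : ℝ) / n) :=
  ⟨0, by rintro _ ⟨H, rfl⟩; positivity⟩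

lemma detection_le {k n : ℕ} (A : Fin n → FreeGroup (Fin k)) {H : Subgroup (FreeGroup (Fin k))}
    (hH : H ≠ ⊤) : detection A ≤ (Nat.card {i : Fin n // A i ∉ H} : ℝ) / n :=
  ciInf_le (bdd A) ⟨H, hH⟩

lemma norm_map_le {α β : Type*} [DecidableEq α] [DecidableEq β] (f : α → β) (x : FreeGroup α) :
    (FreeGroup.map f x).norm ≤ x.norm := by
  conv_lhs => rw [← FreeGroup.mk_toWord (x := x)]
  rw [FreeGroup.map.mk]
  refine (FreeGroup.norm_mk_le).trans ?_
  simp [FreeGroup.norm]

/-- first position of the block with number `b` -/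
def start (k m b : ℕ) : ℕ := min (b * m) (k - m)

/-- the block with number `b` -/
def blk {k m : ℕ} (hmk : m ≤ k) (b : ℕ) (j : Fin m) : Fin k :=
  ⟨start k m b + j, by have := j.2; have : start k m b ≤ k - m := min_le_right _ _; omega⟩

lemma exists_blk {k m : ℕ} (hm : 1 ≤ m) (hmk : m ≤ k) (j : Fin k) :
    ∃ b < (k - 1) / m + 1, ∃ i : Fin m, blk hmk b i = j := by
  have h0 : m * (j.1 / m) ≤ j.1 := Nat.mul_div_le _ _
  have h1 : j.1 < m * (j.1 / m + 1) := Nat.lt_mul_div_succ _ (by omega)
  have h2 : j.1 / m ≤ (k - 1) / m := Nat.div_le_div_right (by have := j.2; omega)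
  refine ⟨j.1 / m, by omega, ?_⟩
  have hs : start k m (j.1 / m) ≤ j.1 := by
    refine (min_le_left _ _).trans ?_
    rw [Nat.mul_comm]; exact h0
  have ht : j.1 - start k m (j.1 / m) < m := by
    rcases min_choice ((j.1 / m) * m) (k - m) with h | h
    · unfold start; rw [h, Nat.mul_comm]
      rw [Nat.mul_add, Nat.mul_one] at h1
      omega
    · unfold start; rw [h]
      have := j.2
      omega
  refine ⟨⟨j.1 - start k m (j.1 / m), ht⟩, ?_⟩
  apply Fin.ext
  simp only [blk]
  omega

lemma exists_of_not_mem {k : ℕ} {H : Subgroup (FreeGroup (Fin k))} (hH : H ≠ ⊤) :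
    ∃ j : Fin k, FreeGroup.of j ∉ H := by
  by_contra h
  push Not at h
  apply hH
  rw [eq_top_iff, ← FreeGroup.closure_range_of, Subgroup.closure_le]
  rintro _ ⟨j, rfl⟩
  exact h j

/-- codes with short words -/
lemma exists_short {k m : ℕ} (hm : 1 ≤ m) (hmk : m ≤ k) :
    ∃ (n : ℕ) (A : Fin n → FreeGroup (Fin k)), 0 < n ∧ n ≤ 3048 * (((k - 1) / m + 1) * m) ∧
      (∀ i, (A i).norm ≤ m) ∧ 1 / (512 * (((k - 1) / m + 1 : ℕ) : ℝ)) ≤ detection A := by
  classical
  obtain ⟨n0, w, h0, h1, h2, h3⟩ := Univ637.exists_code (k := m) (by omega)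
  set q := (k - 1) / m + 1 with hq
  have hqm : q * m ≤ k - 1 + m := by
    rw [hq, Nat.add_mul, Nat.one_mul]
    have : (k - 1) / m * m ≤ k - 1 := Nat.div_mul_le_self _ _
    omega
  have hq0 : 0 < q := Nat.succ_pos _
  let A : Fin (q * n0) → FreeGroup (Fin k) := fun i =>
    FreeGroup.map (blk hmk (finProdFinEquiv.symm i).1) (w (finProdFinEquiv.symm i).2)
  have hkpos : 0 < k := by omega
  have hN : 0 < q * n0 := Nat.mul_pos hq0 h0
  refine ⟨q * n0, A, hN, ?_, fun i => (norm_map_le _ _).trans (h2 _), ?_⟩
  · calc q * n0 ≤ q * (3048 * m) := Nat.mul_le_mul_left _ h1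
      _ = 3048 * (q * m) := by ring
  · have hne : (⊥ : Subgroup (FreeGroup (Fin k))) ≠ ⊤ := by
      intro h
      have h4 : FreeGroup.of (⟨0, hkpos⟩ : Fin k) ∈ (⊥ : Subgroup (FreeGroup (Fin k))) := by
        rw [h]; exact Subgroup.mem_top _
      rw [Subgroup.mem_bot] at h4
      exact FreeGroup.of_ne_one _ h4
    have : Nonempty {H : Subgroup (FreeGroup (Fin k)) // H ≠ ⊤} := ⟨⟨⊥, hne⟩⟩
    refine le_ciInf ?_
    rintro ⟨H, hH⟩
    obtain ⟨j, hj⟩ := exists_of_not_mem hH
    obtain ⟨b, hb, i0, hi0⟩ := exists_blk hm hmk j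
    have hH' : H.comap (FreeGroup.map (blk hmk b)) ≠ ⊤ := by
      intro h
      apply hj
      have : FreeGroup.of i0 ∈ H.comap (FreeGroup.map (blk hmk b)) := by
        rw [h]; exact Subgroup.mem_top _
      rw [Subgroup.mem_comap, FreeGroup.map.of, hi0] at this
      exact this
    have h4 := h3 _ hH'
    have h5 : ((Finset.univ : Finset (Fin n0)).filter
        (fun i => w i ∉ H.comap (FreeGroup.map (blk hmk b)))).card ≤
        Nat.card {i : Fin (q * n0) // A i ∉ H} := by
      rw [← Fintype.card_subtype, ← Nat.card_eq_fintype_card]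
      refine Nat.card_le_card_of_injective
        (fun i : {i : Fin n0 // w i ∉ H.comap (FreeGroup.map (blk hmk b))} =>
          (⟨finProdFinEquiv (⟨b, hb⟩, i.1), ?_⟩ : {i : Fin (q * n0) // A i ∉ H})) ?_
      · have := i.2
        rw [Subgroup.mem_comap] at this
        simp only [A, Equiv.symm_apply_apply]
        exact this
      · intro i i' h
        have h6 := congrArg Subtype.val h
        have h7 := finProdFinEquiv.injective h6
        exact Subtype.ext (congrArg Prod.snd h7)
    have hkR : (0 : ℝ) < k := by exact_mod_cast hkpos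
    have h6 : (n0 : ℝ) ≤ 512 * (Nat.card {i : Fin (q * n0) // A i ∉ H} : ℝ) := by
      have := h4.trans (Nat.mul_le_mul_left 512 h5)
      exact_mod_cast this
    have hNR : (0 : ℝ) < ((q * n0 : ℕ) : ℝ) := by exact_mod_cast hN
    have hqR : (0 : ℝ) < (q : ℝ) := by exact_mod_cast hq0
    rw [le_div_iff₀ hNR, div_mul_eq_mul_div, div_le_iff₀ (by positivity)]
    push_cast
    calc (1 : ℝ) * (q * n0) = q * n0 := by ring
      _ ≤ q * (512 * (Nat.card {i : Fin (q * n0) // A i ∉ H} : ℝ)) := by gcongr
      _ = (Nat.card {i : Fin (q * n0) // A i ∉ H} : ℝ) * (512 * q) := by ring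

/-- the elements in which the exponents of the `j`-th basis element sum up to zero -/
def coord {k : ℕ} (j : Fin k) : Subgroup (FreeGroup (Fin k)) :=
  (FreeGroup.lift (fun x => if x = j then Multiplicative.ofAdd (1 : ℤ) else 1)).ker

lemma coord_ne_top {k : ℕ} (j : Fin k) : coord j ≠ ⊤ := by
  intro h
  have h1 : FreeGroup.of j ∈ coord j := by rw [h]; exact Subgroup.mem_top _
  rw [coord, MonoidHom.mem_ker, FreeGroup.lift_apply_of] at h1
  simp at h1

lemma mem_coord {k : ℕ} (j : Fin k) (x : FreeGroup (Fin k))
    (h : ∀ p ∈ x.toWord, p.1 ≠ j) : x ∈ coord j := by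
  rw [coord, MonoidHom.mem_ker, ← FreeGroup.mk_toWord (x := x), FreeGroup.lift_mk]
  apply List.prod_eq_one
  intro y hy
  obtain ⟨p, hp, rfl⟩ := List.mem_map.mp hy
  have := h p hp
  simp [this]

lemma card_coord_le {k : ℕ} (x : FreeGroup (Fin k)) :
    Nat.card {j : Fin k // x ∉ coord j} ≤ x.norm := by
  classical
  rw [Nat.card_eq_fintype_card, Fintype.card_subtype]
  calc ((Finset.univ : Finset (Fin k)).filter (fun j => x ∉ coord j)).card
      ≤ (x.toWord.map Prod.fst).toFinset.card := by
        apply Finset.card_le_card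
        intro j hj
        rw [Finset.mem_filter] at hj
        by_contra hn
        apply hj.2
        apply mem_coord
        intro p hp he
        apply hn
        rw [List.mem_toFinset, List.mem_map]
        exact ⟨p, hp, he⟩
    _ ≤ (x.toWord.map Prod.fst).length := List.toFinset_card_le _
    _ = x.norm := by simp [FreeGroup.norm]

lemma detection_le_avg {k n : ℕ} (hk : 0 < k) (hn : 0 < n) (A : Fin n → FreeGroup (Fin k)) :
    detection A ≤ (∑ i, ((A i).norm : ℝ)) / n / k := by
  classical
  have hkR : (0 : ℝ) < k := by exact_mod_cast hk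
  have hnR : (0 : ℝ) < n := by exact_mod_cast hn
  have h1 : (k : ℝ) * detection A ≤
      ∑ j : Fin k, (Nat.card {i : Fin n // A i ∉ coord j} : ℝ) / n := by
    calc (k : ℝ) * detection A = ∑ _j : Fin k, detection A := by simp
      _ ≤ _ := Finset.sum_le_sum fun j _ => detection_le A (coord_ne_top j)
  have h2 : ∑ j : Fin k, Nat.card {i : Fin n // A i ∉ coord j} =
      ∑ i : Fin n, Nat.card {j : Fin k // A i ∉ coord j} := by
    simp only [Nat.card_eq_fintype_card, Fintype.card_subtype, Finset.card_filter]
    exact Finset.sum_comm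
  have h3 : ∑ j : Fin k, (Nat.card {i : Fin n // A i ∉ coord j} : ℝ) ≤
      ∑ i, ((A i).norm : ℝ) := by
    have : ∑ j : Fin k, Nat.card {i : Fin n // A i ∉ coord j} ≤ ∑ i, (A i).norm := by
      rw [h2]
      exact Finset.sum_le_sum fun i _ => card_coord_le (A i)
    exact_mod_cast this
  rw [le_div_iff₀ hkR, le_div_iff₀ hnR]
  rw [← Finset.sum_div, le_div_iff₀ hnR] at h1
  calc detection A * k * n = k * detection A * n := by ring
    _ ≤ _ := h1.trans h3

lemma le_of_detection_pos {k n : ℕ} (A : Fin n → FreeGroup (Fin k)) (h : 0 < detection A) :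
    k ≤ n := by
  classical
  have hc : Subgroup.closure (Set.range A) = ⊤ := by
    by_contra hc
    have h1 := detection_le A hc
    have h2 : Nat.card {i : Fin n // A i ∉ Subgroup.closure (Set.range A)} = 0 := by
      have : IsEmpty {i : Fin n // A i ∉ Subgroup.closure (Set.range A)} :=
        ⟨fun i => i.2 (Subgroup.subset_closure ⟨i.1, rfl⟩)⟩
      exact Nat.card_of_isEmpty
    rw [h2] at h1
    simp at h1
    linarith
  let ψ : FreeGroup (Fin k) →* Multiplicative (Fin k → ℚ) :=
    FreeGroup.lift fun x => Multiplicative.ofAdd (Pi.single x 1)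
  let u : Fin n → (Fin k → ℚ) := fun i => (ψ (A i)).toAdd
  have hg : ∀ g : FreeGroup (Fin k), (ψ g).toAdd ∈ Submodule.span ℚ (Set.range u) := by
    intro g
    have : g ∈ Subgroup.closure (Set.range A) := by rw [hc]; exact Subgroup.mem_top _
    induction this using Subgroup.closure_induction with
    | mem x hx =>
      obtain ⟨i, rfl⟩ := hx
      exact Submodule.subset_span ⟨i, rfl⟩
    | one => rw [map_one]; exact Submodule.zero_mem _
    | mul x y _ _ hx hy => rw [map_mul]; exact Submodule.add_mem _ hx hy
    | inv x _ hx => rw [map_inv]; exact Submodule.neg_mem _ hx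
  have hs : Submodule.span ℚ (Set.range u) = ⊤ := by
    rw [eq_top_iff, ← (Pi.basisFun ℚ (Fin k)).span_eq, Submodule.span_le]
    rintro _ ⟨j, rfl⟩
    have := hg (FreeGroup.of j)
    rw [FreeGroup.lift_apply_of] at this
    simpa [Pi.basisFun_apply] using this
  have h4 : Module.finrank ℚ (Fin k → ℚ) ≤ n := by
    have h5 := finrank_range_le_card (R := ℚ) (b := u)
    rw [Set.finrank, hs, finrank_top, Fintype.card_fin] at h5
    exact h5
  simpa using h4

/-- **The tradeoff between detection probability and word length.** Let `k, m ≥ 1` and let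
`q = ⌈k / m⌉`. There is a test tuple of at most `3048 q min (k, m)` (hence at most `6096 k`) words of
length at most `m` in the free group of rank `k` with detection probability at least `1 / (512 q)`,
hence at least `min (1, m / k) / 1024`. Conversely the detection probability of any test tuple
(of any size) is at most `1`, at most the average length of its words divided by `k`, hence at most
`m / k` if all words have length at most `m`, and it is `0` if there are fewer than `k` words. -/
theorem result : ∀ k m : ℕ, 1 ≤ k → 1 ≤ m →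
    (∃ (n : ℕ) (A : Fin n → FreeGroup (Fin k)), 0 < n ∧
      n ≤ 3048 * ((k + m - 1) / m * min k m) ∧ n ≤ 6096 * k ∧ (∀ i, (A i).norm ≤ m) ∧
      1 / (512 * (((k + m - 1) / m : ℕ) : ℝ)) ≤ detection A ∧
      min 1 ((m : ℝ) / k) / 1024 ≤ detection A) ∧
    ∀ (n : ℕ) (A : Fin n → FreeGroup (Fin k)), 0 < n →
      detection A ≤ 1 ∧ detection A ≤ (∑ i, ((A i).norm : ℝ)) / n / k ∧
      ((∀ i, (A i).norm ≤ m) → detection A ≤ (m : ℝ) / k) ∧ (n < k → detection A = 0) := by
  classical
  intro k m hk hm
  have hkR : (0 : ℝ) < k := by exact_mod_cast hk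
  have hmR : (0 : ℝ) < m := by exact_mod_cast hm
  constructor
  · have hq : (k + m - 1) / m = (k - 1) / m + 1 := by
      have : k + m - 1 = k - 1 + m := by omega
      rw [this, Nat.add_div_right _ (by omega)]
    rcases le_total m k with h | h
    · obtain ⟨n, A, h1, h2, h3, h4⟩ := exists_short hm h
      rw [← hq] at h2 h4
      have hqm : (k + m - 1) / m * m ≤ 2 * k := by
        refine (Nat.div_mul_le_self _ _).trans ?_
        omega
      refine ⟨n, A, h1, by rw [min_eq_right h]; exact h2, by omega, h3, h4, le_trans ?_ h4⟩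
      have hq0 : 0 < (k + m - 1) / m := by rw [hq]; exact Nat.succ_pos _
      have hqR : (0 : ℝ) < (((k + m - 1) / m : ℕ) : ℝ) := by exact_mod_cast hq0
      have hqmR : (((k + m - 1) / m : ℕ) : ℝ) * m ≤ 2 * k := by exact_mod_cast hqm
      refine (div_le_div_of_nonneg_right (min_le_right _ _) (by norm_num)).trans ?_
      rw [div_div, div_le_div_iff₀ (by positivity) (by positivity)]
      nlinarith
    · obtain ⟨n, A, h1, h2, h3, h4⟩ := exists_short hk le_rfl
      have e1 : (k - 1) / k = 0 := Nat.div_eq_of_lt (by omega)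
      have e2 : (k + m - 1) / m = 1 := by
        rw [hq, Nat.div_eq_of_lt (by omega)]
      rw [e1] at h2 h4
      rw [e2]
      refine ⟨n, A, h1, by rw [min_eq_left h]; simpa using h2, by omega, fun i => (h3 i).trans h,
        by simpa using h4, le_trans ?_ h4⟩
      refine (div_le_div_of_nonneg_right (min_le_left _ _) (by norm_num)).trans ?_
      norm_num
  · intro n A hn
    have hnR : (0 : ℝ) < n := by exact_mod_cast hn
    have h1 := detection_le_avg hk hn A
    refine ⟨?_, h1, fun h => h1.trans ?_, fun h => ?_⟩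
    · refine (detection_le A (coord_ne_top ⟨0, hk⟩)).trans ?_
      rw [div_le_one hnR]
      have : Nat.card {i : Fin n // A i ∉ coord ⟨0, hk⟩} ≤ Nat.card (Fin n) :=
        Nat.card_le_card_of_injective _ Subtype.val_injective
      rw [Nat.card_fin] at this
      exact_mod_cast this
    · gcongr
      rw [div_le_iff₀ hnR]
      calc (∑ i, ((A i).norm : ℝ)) ≤ ∑ _i : Fin n, (m : ℝ) :=
            Finset.sum_le_sum fun i _ => by exact_mod_cast h i
        _ = m * n := by simp [mul_comm]
    · apply le_antisymm
      · by_contra hc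
        push Not at hc
        have := le_of_detection_pos A hc
        omega
      · exact Real.iInf_nonneg fun H => by positivity

end Pool.Agent.Results.MP_6f9718_al.OptimalTradeoff
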